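/-!
# A fast kernel checker for bistellar flips: vertex bitsets over the indices of the facets

The state is a perfect binary tree of depth `8`; the leaf with the address `v` is the bitset of the indices of the
facets which contain the vertex `v`. `U` is the bitset of the used indices.
-/

set_option autoImplicit false

noncomputable section

namespace Pool.Agent.V8H85.GC

/-- binary trees with numbers at the leaves -/
inductive BT where
  | lf (m : Nat) : BT
  | nd (l r : BT) : BT

/-- the leaf with the address `p` (least significant bit first) -/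
def BT.get (t : BT) : Nat → Nat :=
  BT.rec (motive := fun _ => Nat → Nat) (fun m _ => m)
    (fun _ _ gl gr p => Bool.rec (gl (Nat.shiftRight p 1)) (gr (Nat.shiftRight p 1)) (Nat.beq (Nat.land p 1) 1)) t

/-- change the leaf with the address `p` to `x` -/
def BT.set (x : Nat) (t : BT) : Nat → BT :=
  BT.rec (motive := fun _ => Nat → BT) (fun _ _ => BT.lf x)
    (fun l r gl gr p => Bool.rec (BT.nd (gl (Nat.shiftRight p 1)) r) (BT.nd l (gr (Nat.shiftRight p 1)))
      (Nat.beq (Nat.land p 1) 1)) t

/-- the tree is perfect of depth `d` -/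
def BT.perf (t : BT) : Nat → Bool :=
  BT.rec (motive := fun _ => Nat → Bool) (fun _ d => Nat.beq d 0)
    (fun _ _ gl gr d => Nat.rec (motive := fun _ => Bool) false (fun d _ => Bool.rec false (gr d) (gl d)) d) t

/-- equality of trees -/
def BT.beq (s : BT) : BT → Bool :=
  BT.rec (motive := fun _ => BT → Bool)
    (fun m t => BT.rec (motive := fun _ => Bool) (fun m' => Nat.beq m m') (fun _ _ _ _ => false) t)
    (fun _ _ el er t => BT.rec (motive := fun _ => Bool) (fun _ => false)
      (fun l r _ _ => Bool.rec false (er r) (el l)) t) s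

def two (k : Nat) : Nat := Nat.shiftLeft 1 k

/-- the union of `acc` and the powers of two with the exponents in `l`, which have to be distinct and new -/
def ors (l : List Nat) : Nat → (Nat → Bool) → Bool :=
  List.rec (motive := fun _ => Nat → (Nat → Bool) → Bool) (fun acc k => k acc)
    (fun p _ ih acc k => Bool.rec false (ih (Nat.lor acc (two p)) k) (Nat.beq (Nat.land acc (two p)) 0)) l

def fsts (l : List (Nat × Nat)) : List Nat := List.rec (motive := fun _ => List Nat) [] (fun p _ ih => p.1 :: ih) l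
def snds (l : List (Nat × Nat)) : List Nat := List.rec (motive := fun _ => List Nat) [] (fun p _ ih => p.2 :: ih) l
def len (l : List Nat) : Nat := List.rec (motive := fun _ => Nat) 0 (fun _ _ ih => Nat.succ ih) l

/-- the intersection of `acc` and the bitsets of the vertices in `l` -/
def ands (t : BT) (l : List Nat) : Nat → Nat :=
  List.rec (motive := fun _ => Nat → Nat) (fun acc => acc) (fun p _ ih acc => ih (Nat.land acc (t.get p))) l

def chkB (t : BT) (SA : Nat) (l : List (Nat × Nat)) : Bool :=
  List.rec (motive := fun _ => Bool) true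
    (fun p _ ih => Bool.rec false ih (Nat.beq (Nat.land (t.get p.1) SA) (Nat.xor SA (two p.2)))) l

def updB (SA NA : Nat) (l : List (Nat × Nat)) : BT → BT :=
  List.rec (motive := fun _ => BT → BT) (fun t => t)
    (fun p _ ih t => ih (BT.set (Nat.lor (Nat.xor (t.get p.1) (Nat.xor SA (two p.2))) NA) t p.1)) l

def updA (SA NA : Nat) (l : List (Nat × Nat)) : BT → BT :=
  List.rec (motive := fun _ => BT → BT) (fun t => t)
    (fun p _ ih t => ih (BT.set (Nat.lor (Nat.xor (t.get p.1) SA) (Nat.xor NA (two p.2))) t p.1)) l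

/-- one flip; `A` and `B` are lists of pairs (vertex `v`, index of the facet without the vertex `v`) -/
def flip (n : Nat) (A B : List (Nat × Nat)) (t : BT) (U : Nat) (k : BT → Nat → Bool) : Bool :=
  ors (snds A) 0 fun NA => ors (snds B) 0 fun OB => ors (fsts A) 0 fun c => ors (fsts B) c fun c =>
    Bool.rec false
      (Bool.rec false
        (Bool.rec false
          (Bool.rec false
            (Bool.rec false
              (Bool.rec false
                (k (updB OB NA B (updA OB NA A t)) (Nat.lor (Nat.xor U OB) NA))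
                (Nat.beq (Nat.land NA (Nat.xor U OB)) 0))
              (chkB t OB B))
            (Nat.beq (ands t (fsts B) U) 0))
          (Nat.beq (ands t (fsts A) U) OB))
        (Nat.ble (Nat.succ c) (two 256)))
      (and (Nat.beq (Nat.add (len (fsts A)) (len (fsts B))) (Nat.succ n))
        (and (Nat.ble 1 (len (fsts A))) (Nat.ble 1 (len (fsts B)))))

/-- the first `m` entries of an encoded list of pairs -/
def dec (m : Nat) : Nat → List (Nat × Nat) :=
  Nat.rec (motive := fun _ => Nat → List (Nat × Nat)) (fun _ => [])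
    (fun _ ih c => (Nat.land c 255, Nat.land (Nat.shiftRight c 8) 65535) :: ih (Nat.shiftRight c 24)) m

/-- a sequence of flips; each flip is encoded by a number -/
def run (n : Nat) (fl : List Nat) : BT → Nat → (BT → Nat → Bool) → Bool :=
  List.rec (motive := fun _ => BT → Nat → (BT → Nat → Bool) → Bool) (fun t U k => k t U)
    (fun x _ ih t U k =>
      flip n (dec (Nat.land x 15) (Nat.shiftRight x 4))
        (dec (Nat.sub (Nat.succ n) (Nat.land x 15)) (Nat.shiftRight x (Nat.add 4 (Nat.mul 24 (Nat.land x 15))))) t U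
        fun t U => ih t U k) fl

/-- the check of a segment of the certificate -/
def seg (n : Nat) (fl : List Nat) (t : BT) (U : Nat) (t' : BT) (U' : Nat) : Bool :=
  run n fl t U fun s W => Bool.rec false (s.beq t') (Nat.beq W U')

/-- the state for the boundary of the simplex with the vertices `0, …, 7`; the facet `j` does not contain `j` -/
def tS : BT :=
  let z : BT := .lf 0
  (.nd (.nd (.nd (.nd (.nd (.nd (.nd (.nd (.lf 254) z) (.nd z z)) (.nd (.nd z z) (.nd z z))) (.nd (.nd (.nd z z) (.nd z z)) (.nd (.nd z z) (.nd z z)))) (.nd (.nd (.nd (.nd z z) (.nd z z)) (.nd (.nd z z) (.nd z z))) (.nd (.nd (.nd z z) (.nd z z)) (.nd (.nd z z) (.nd z z))))) (.nd (.nd (.nd (.nd (.nd (.lf 239) z) (.nd z z)) (.nd (.nd z z) (.nd z z))) (.nd (.nd (.nd z z) (.nd z z)) (.nd (.nd z z) (.nd z z)))) (.nd (.nd (.nd (.nd z z) (.nd z z)) (.nd (.nd z z) (.nd z z))) (.nd (.nd (.nd z z) (.nd z z)) (.nd (.nd z z) (.nd z z)))))) (.nd (.nd (.nd (.nd (.nd (.nd (.lf 251) z) (.nd z z)) (.nd (.nd z z) (.nd z z))) (.nd (.nd (.nd z z) (.nd z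 z)) (.nd (.nd z z) (.nd z z)))) (.nd (.nd (.nd (.nd z z) (.nd z z)) (.nd (.nd z z) (.nd z z))) (.nd (.nd (.nd z z) (.nd z z)) (.nd (.nd z z) (.nd z z))))) (.nd (.nd (.nd (.nd (.nd (.lf 191) z) (.nd z z)) (.nd (.nd z z) (.nd z z))) (.nd (.nd (.nd z z) (.nd z z)) (.nd (.nd z z) (.nd z z)))) (.nd (.nd (.nd (.nd z z) (.nd z z)) (.nd (.nd z z) (.nd z z))) (.nd (.nd (.nd z z) (.nd z z)) (.nd (.nd z z) (.nd z z))))))) (.nd (.nd (.nd (.nd (.nd (.nd (.nd (.lf 253) z) (.nd z z)) (.nd (.nd z z) (.nd z z))) (.nd (.nd (.nd z z) (.nd z z)) (.nd (.nd z z) (.nd z z)))) (.nd (.nd (.nd (.nd z z) (.nd z z)) (.nd (.nd z z) (.nd z z))) (.nd (.nd (.nd z z) (.nd z z)) (.nd (.nd z z) (.nd z z))))) (.nd (.nd (.nd (.nd (.nd (.lf 223) z) (.nd z z)) (.nd (.nd z z) (.nd z z))) (.nd (.nd (.nd z z) (.nd z z)) (.nd (.nd z z) (.nd z z)))) (.nd (.nd (.nd (.nd z z) (.nd z z)) (.nd (.nd z z) (.nd z z))) (.nd (.nd (.nd z z) (.nd z z)) (.nd (.nd z z) (.nd z z)))))) (.nd (.nd (.nd (.nd (.nd (.nd (.lf 247) z) (.nd z z)) (.nd (.nd z z) (.nd z z))) (.nd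 (.nd (.nd z z) (.nd z z)) (.nd (.nd z z) (.nd z z)))) (.nd (.nd (.nd (.nd z z) (.nd z z)) (.nd (.nd z z) (.nd z z))) (.nd (.nd (.nd z z) (.nd z z)) (.nd (.nd z z) (.nd z z))))) (.nd (.nd (.nd (.nd (.nd (.lf 127) z) (.nd z z)) (.nd (.nd z z) (.nd z z))) (.nd (.nd (.nd z z) (.nd z z)) (.nd (.nd z z) (.nd z z)))) (.nd (.nd (.nd (.nd z z) (.nd z z)) (.nd (.nd z z) (.nd z z))) (.nd (.nd (.nd z z) (.nd z z)) (.nd (.nd z z) (.nd z z))))))))

/-- the lowest `m` bytes of `x` -/
def vs (m : Nat) : Nat → List Nat :=
  Nat.rec (motive := fun _ => Nat → List Nat) (fun _ => []) (fun _ ih x => Nat.land x 255 :: ih (Nat.shiftRight x 8)) m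

/-- add the bit set `w` at the vertices in `l`; these bits must be new -/
def addF (w : Nat) (l : List Nat) : BT → (BT → Bool) → Bool :=
  List.rec (motive := fun _ => BT → (BT → Bool) → Bool) (fun t k => k t)
    (fun v _ ih t k => Bool.rec false (ih (BT.set (Nat.lor (t.get v) w) t v) k) (Nat.beq (Nat.land (t.get v) w) 0)) l

/-- the state with the facets `fs`; a facet is encoded by seven bytes, the rest of the number is its index -/
def bld (fs : List Nat) : BT → (BT → Bool) → Bool :=
  List.rec (motive := fun _ => BT → (BT → Bool) → Bool) (fun t k => k t)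
    (fun x _ ih t k => addF (two (Nat.shiftRight x 56)) (vs 7 x) t fun t => ih t k) fs

/-- the perfect tree with zeros -/
def zt (d : Nat) : BT := Nat.rec (motive := fun _ => BT) (.lf 0) (fun _ ih => .nd ih ih) d

def mask (l : List Nat) : Nat := List.rec (motive := fun _ => Nat) 0 (fun v _ ih => Nat.lor (two v) ih) l

def idxs (fs : List Nat) : List Nat :=
  List.rec (motive := fun _ => List Nat) [] (fun x _ ih => Nat.shiftRight x 56 :: ih) fs

/-- `L` is the list of the bitsets of the facets `fs` -/
def msk (fs : List Nat) : List Nat → Bool :=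
  List.rec (motive := fun _ => List Nat → Bool)
    (fun L => List.rec (motive := fun _ => Bool) true (fun _ _ _ => false) L)
    (fun x _ ih L => List.rec (motive := fun _ => Bool) false
      (fun y t _ => Bool.rec false (ih t) (Nat.beq (mask (vs 7 x)) y)) L) fs

/-- the check of the list of the facets -/
def fin (fs L : List Nat) (t : BT) : Bool :=
  and (msk fs L) (and (ors (idxs fs) 0 fun _ => true) (and (Nat.ble 1 (len fs)) (bld fs (zt 8) fun s => s.beq t)))

end Pool.Agent.V8H85.GC

end
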