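import Pool.Agent.V8H85.GC.Fin2

/-!
# The check of the list of the facets in slices
-/

set_option autoImplicit false

noncomputable section

namespace Pool.Agent.V8H85.GC

open Pool.Agent.V8H27.GC
open Pool.Agent.V8H50.FL (rec_f and_t)
open Pool.Agent.V8H50.GC (faces)

/-- the bits of all leaves from the position `a` on, masked by `M` -/
def BT.sl (a M : Nat) (t : BT) : BT :=
  BT.rec (motive := fun _ => BT) (fun m => .lf (Nat.land (Nat.shiftRight m a) M)) (fun _ _ l r => .nd l r) t

/-- no bits at or above the position `a` -/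
def BT.top (a : Nat) (t : BT) : Bool :=
  BT.rec (motive := fun _ => Bool) (fun m => Nat.beq (Nat.shiftRight m a) 0) (fun _ _ l r => Bool.rec false r l) t

/-- the check of the list of the facets of a slice of width `b` -/
def finS (a b : Nat) (fs L : List Nat) (t : BT) : Bool := fin fs L (t.sl a (Nat.sub (two b) 1))

/-- equality of lists -/
def leq (l : List Nat) : List Nat → Bool :=
  List.rec (motive := fun _ => List Nat → Bool)
    (fun L => List.rec (motive := fun _ => Bool) true (fun _ _ _ => false) L)
    (fun x _ ih L => List.rec (motive := fun _ => Bool) false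
      (fun y t _ => Bool.rec false (ih t) (Nat.beq x y)) L) l

theorem leq_ok (l : List ℕ) : ∀ L, leq l L = true → l = L := by
  induction l with
  | nil =>
    intro L h
    cases L with
    | nil => rfl
    | cons y t => exact absurd h Bool.false_ne_true
  | cons x l ih =>
    intro L h
    cases L with
    | nil => exact absurd h Bool.false_ne_true
    | cons y t =>
      obtain ⟨h1, h2⟩ := rec_f (show (Bool.rec false (leq l t) (Nat.beq x y) : Bool) = true from h)
      rw [ih t h2, Nat.eq_of_beq_eq_true h1]

theorem sl_get (a M : ℕ) (t : BT) : ∀ p, (t.sl a M).get p = Nat.land (Nat.shiftRight (t.get p) a) M := by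
  induction t with
  | lf m => intro p; rfl
  | nd l r hl hr =>
    intro p
    have e : (BT.nd l r).sl a M = .nd (l.sl a M) (r.sl a M) := rfl
    rw [e, get_nd, get_nd]
    split_ifs
    · exact hr _
    · exact hl _

theorem top_get (a : ℕ) (t : BT) (h : t.top a = true) : ∀ p, Nat.shiftRight (t.get p) a = 0 := by
  induction t with
  | lf m => intro p; exact Nat.eq_of_beq_eq_true h
  | nd l r hl hr =>
    obtain ⟨h1, h2⟩ := rec_f (show (Bool.rec false (r.top a) (l.top a) : Bool) = true from h)
    intro p
    rw [get_nd]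
    split_ifs
    · exact hr h2 _
    · exact hl h1 _

/-- the nonempty faces of the facets with indices below `a` are the nonempty faces of `L` -/
def Upto (t : BT) (a : ℕ) (L : List ℕ) : Prop :=
  ∀ T : Finset ℕ, T.Nonempty → ((∃ j < a, ∀ v ∈ T, v < 256 ∧ (t.get v).testBit j = true) ↔ T ∈ faces L)

theorem upto_zero (t : BT) : Upto t 0 [] := by
  intro T _
  constructor
  · rintro ⟨j, hj, -⟩
    omega
  · rintro ⟨f, hf, -⟩
    exact absurd hf List.not_mem_nil

theorem upto_step {t : BT} {a b : ℕ} {L L' fs : List ℕ} (h : Upto t a L) (h' : finS a b fs L' t = true) :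
    Upto t (a + b) (L ++ L') := by
  have h1 : KB (t.sl a (Nat.sub (two b) 1)) = faces L' := fin_ok h'
  have hM : ∀ v j, ((t.sl a (Nat.sub (two b) 1)).get v).testBit j = ((t.get v).testBit (a + j) && decide (j < b)) := by
    intro v j
    have e : Nat.sub (two b) 1 = 2 ^ b - 1 := by
      have : two b = 2 ^ b := Nat.one_shiftLeft b
      rw [this]; rfl
    have e2 : Nat.shiftRight (t.get v) a = (t.get v) >>> a := rfl
    rw [sl_get, tb_land, e, Nat.testBit_two_pow_sub_one, e2, Nat.testBit_shiftRight]
  intro T hT
  obtain ⟨v0, hv0⟩ := hT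
  constructor
  · rintro ⟨j, hj, hjT⟩
    by_cases hja : j < a
    · obtain ⟨f, hf, hf'⟩ := (h T ⟨v0, hv0⟩).1 ⟨j, hja, hjT⟩
      exact ⟨f, List.mem_append_left _ hf, hf'⟩
    · have h2 : T ∈ KB (t.sl a (Nat.sub (two b) 1)) := by
        refine ⟨j - a, fun v hv => ⟨(hjT v hv).1, ?_⟩⟩
        rw [hM, show a + (j - a) = j by omega, (hjT v hv).2, Bool.true_and, decide_eq_true_eq]
        omega
      rw [h1] at h2
      obtain ⟨f, hf, hf'⟩ := h2
      exact ⟨f, List.mem_append_right _ hf, hf'⟩
  · rintro ⟨f, hf, hf'⟩
    rcases List.mem_append.1 hf with hf | hf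
    · obtain ⟨j, hj, hjT⟩ := (h T ⟨v0, hv0⟩).2 ⟨f, hf, hf'⟩
      exact ⟨j, by omega, hjT⟩
    · have h2 : T ∈ faces L' := ⟨f, hf, hf'⟩
      rw [← h1] at h2
      obtain ⟨j, hjT⟩ := h2
      have hjb : j < b := by
        have h3 := (hjT v0 hv0).2
        rw [hM, Bool.and_eq_true, decide_eq_true_eq] at h3
        exact h3.2
      refine ⟨a + j, by omega, fun v hv => ⟨(hjT v hv).1, ?_⟩⟩
      have h3 := (hjT v hv).2
      rw [hM, Bool.and_eq_true] at h3
      exact h3.1

theorem upto_end {t : BT} {a : ℕ} {L : List ℕ} (h : Upto t a L) (ht : t.top a = true) (hL : Nat.ble 1 (len L) = true) :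
    KB t = faces L := by
  have hlen : 1 ≤ len L := Nat.le_of_ble_eq_true hL
  rw [len_eq] at hlen
  ext T
  rcases T.eq_empty_or_nonempty with rfl | hT
  · constructor
    · intro _
      obtain ⟨x, hx⟩ := List.exists_mem_of_length_pos (show 0 < L.length by omega)
      exact ⟨x, hx, by simp⟩
    · intro _
      exact ⟨0, by simp⟩
  · rw [← h T hT]
    constructor
    · rintro ⟨j, hjT⟩
      refine ⟨j, ?_, hjT⟩
      obtain ⟨v0, hv0⟩ := hT
      by_contra hja
      have h3 := (hjT v0 hv0).2
      have h4 : (t.get v0) >>> a = 0 := top_get a t ht v0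
      have h5 : ((t.get v0) >>> a).testBit (j - a) = true := by
        rw [Nat.testBit_shiftRight, show a + (j - a) = j by omega]
        exact h3
      rw [h4, Nat.zero_testBit] at h5
      exact Bool.false_ne_true h5
    · rintro ⟨j, -, hjT⟩
      exact ⟨j, hjT⟩

/-- the list starts with `l`; continue with the rest -/
def strip (l : List Nat) : List Nat → (List Nat → Bool) → Bool :=
  List.rec (motive := fun _ => List Nat → (List Nat → Bool) → Bool) (fun L k => k L)
    (fun x _ ih L k => List.rec (motive := fun _ => Bool) false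
      (fun y t _ => Bool.rec false (ih t k) (Nat.beq x y)) L) l

/-- the list is the concatenation of `LL` -/
def leqs (LL : List (List Nat)) : List Nat → Bool :=
  List.rec (motive := fun _ => List Nat → Bool)
    (fun L => List.rec (motive := fun _ => Bool) true (fun _ _ _ => false) L)
    (fun l _ ih L => strip l L ih) LL

theorem strip_ok (l : List ℕ) : ∀ (L : List ℕ) (k : List ℕ → Bool), strip l L k = true → ∃ R, L = l ++ R ∧ k R = true := by
  induction l with
  | nil => exact fun L k h => ⟨L, rfl, h⟩
  | cons x l ih =>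
    intro L k h
    cases L with
    | nil => exact absurd h Bool.false_ne_true
    | cons y t =>
      obtain ⟨h1, h2⟩ := rec_f (show (Bool.rec false (strip l t k) (Nat.beq x y) : Bool) = true from h)
      obtain ⟨R, h3, h4⟩ := ih t k h2
      exact ⟨R, by rw [h3, Nat.eq_of_beq_eq_true h1, List.cons_append], h4⟩

theorem leqs_ok (LL : List (List ℕ)) : ∀ L, leqs LL L = true → L = LL.flatten := by
  induction LL with
  | nil =>
    intro L h
    cases L with
    | nil => rfl
    | cons y t => exact absurd h Bool.false_ne_true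
  | cons l LL ih =>
    intro L h
    obtain ⟨R, h1, h2⟩ := strip_ok l L _ (show strip l L (leqs LL) = true from h)
    rw [List.flatten_cons, ← ih R h2, h1]

/-- the end of a certificate, checked in slices -/
theorem plc_of_upto {n : ℕ} {L L' : List ℕ} {t : BT} {U a : ℕ} (g : Good n t U) (h : Upto t a L) (ht : t.top a = true)
    (hL : Nat.ble 1 (len L') = true) (he : L' = L) : PLC n (faces L') := by
  subst he
  rw [← upto_end h ht hL]
  exact g.2.2

end Pool.Agent.V8H85.GC

end
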