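import Pool.Agent.V8H85.GC.Fn
import Pool.Agent.V8H50.GC.Cert

/-!
# Soundness of the fast checker for bistellar flips
-/

set_option autoImplicit false

namespace Pool.Agent.V8H85.GC

open Pool.Agent.V8H27.GC
open Pool.Agent.V8H50.FL (rec_f and_t nbeq)
open Pool.Agent.V8H50.GC (PLC_flip)

/-- faces of PL spheres have at most `n` vertices -/
theorem PLC_card {V : Type} [LinearOrder V] {n : ℕ} {K : Set (Finset V)} (h : PLC n K) : ∀ T ∈ K, T.card ≤ n := by
  induction h with
  | base W hW =>
    intro T hT
    have := Finset.card_lt_card hT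
    omega
  | star K A m _ hA hne hm ih =>
    rintro T ⟨h1 | ⟨h1, h2⟩, h3⟩
    · exact ih T h1
    · have h4 : (T.erase m).card < (T.erase m ∪ A).card := by
        refine Finset.card_lt_card ⟨Finset.subset_union_left, fun h5 => h3 ?_⟩
        exact (Finset.subset_union_right.trans h5).trans (Finset.erase_subset _ _)
      have h5 := ih _ h2
      have h6 := Finset.card_erase_add_one h1
      omega
  | unstar K A m hK hA hne hm _ ih =>
    intro T hT
    by_cases hAT : A ⊆ T
    · obtain ⟨a, ha⟩ := hne
      have hmT := hm T hT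
      have hm2 : m ∉ T.erase a := fun h1 => hmT (Finset.mem_of_mem_erase h1)
      have h1 : insert m (T.erase a) ∈ star A m K := by
        refine ⟨Or.inr ⟨Finset.mem_insert_self _ _, ?_⟩, ?_⟩
        · rw [Finset.erase_insert hm2]
          have : T.erase a ∪ A = T := by
            ext x
            rw [Finset.mem_union, Finset.mem_erase]
            constructor
            · rintro (h | h)
              · exact h.2
              · exact hAT h
            · intro hx
              by_cases hxa : x = a
              · right; rw [hxa]; exact ha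
              · left; exact ⟨hxa, hx⟩
          rw [this]; exact hT
        · intro h2
          rcases Finset.mem_insert.1 (h2 ha) with h3 | h3
          · exact hm A hA (h3 ▸ ha)
          · exact (Finset.mem_erase.1 h3).1 rfl
      have h2 := ih _ h1
      rw [Finset.card_insert_of_notMem hm2, Finset.card_erase_add_one (hAT ha)] at h2
      exact h2
    · exact ih T ⟨Or.inl hT, hAT⟩

/-! ### trees -/

theorem sel {α : Type} (p : ℕ) (a b : α) :
    (Bool.rec a b (Nat.beq (Nat.land p 1) 1) : α) = if p % 2 = 1 then b else a := by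
  have h1 : Nat.land p 1 = p % 2 := Nat.and_one_is_mod p
  rw [h1]
  rcases Nat.mod_two_eq_zero_or_one p with h | h <;> rw [h] <;> rfl

theorem get_nd (l r : BT) (p : ℕ) : (BT.nd l r).get p = if p % 2 = 1 then r.get (p / 2) else l.get (p / 2) := by
  have h : (BT.nd l r).get p =
      (Bool.rec (l.get (Nat.shiftRight p 1)) (r.get (Nat.shiftRight p 1)) (Nat.beq (Nat.land p 1) 1) : ℕ) := rfl
  have h2 : Nat.shiftRight p 1 = p / 2 := rfl
  rw [h, sel, h2]

theorem set_nd (x : ℕ) (l r : BT) (p : ℕ) :
    (BT.nd l r).set x p = if p % 2 = 1 then BT.nd l (r.set x (p / 2)) else BT.nd (l.set x (p / 2)) r := by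
  have h : (BT.nd l r).set x p = (Bool.rec (BT.nd (l.set x (Nat.shiftRight p 1)) r)
      (BT.nd l (r.set x (Nat.shiftRight p 1))) (Nat.beq (Nat.land p 1) 1) : BT) := rfl
  have h2 : Nat.shiftRight p 1 = p / 2 := rfl
  rw [h, sel, h2]

theorem perf_nd (l r : BT) (d : ℕ) : (BT.nd l r).perf (d + 1) = true ↔ l.perf d = true ∧ r.perf d = true := by
  have h : (BT.nd l r).perf (d + 1) = (Bool.rec false (r.perf d) (l.perf d) : Bool) := rfl
  rw [h]
  cases l.perf d <;> cases r.perf d <;> simp

theorem perf_set (x : ℕ) (t : BT) : ∀ (d p : ℕ), t.perf d = true → (t.set x p).perf d = true := by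
  induction t with
  | lf m => exact fun d p h => h
  | nd l r ihl ihr =>
    intro d p h
    cases d with
    | zero => exact absurd h Bool.false_ne_true
    | succ d =>
      rw [perf_nd] at h
      rw [set_nd]
      split_ifs
      · rw [perf_nd]; exact ⟨h.1, ihr _ _ h.2⟩
      · rw [perf_nd]; exact ⟨ihl _ _ h.1, h.2⟩

theorem get_set (x : ℕ) (t : BT) : ∀ (d p q : ℕ), t.perf d = true → p < 2 ^ d → q < 2 ^ d →
    (t.set x p).get q = if q = p then x else t.get q := by
  induction t with
  | lf m =>
    intro d p q h hp hq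
    have hd : d = 0 := Nat.eq_of_beq_eq_true h
    subst hd
    have : q = p := by simp at hp hq; omega
    rw [if_pos this]
    rfl
  | nd l r ihl ihr =>
    intro d p q h hp hq
    cases d with
    | zero => exact absurd h Bool.false_ne_true
    | succ d =>
      rw [perf_nd] at h
      rw [pow_succ] at hp hq
      rw [set_nd]
      have hp2 : p / 2 < 2 ^ d := by omega
      have hq2 : q / 2 < 2 ^ d := by omega
      by_cases h1 : p % 2 = 1
      · rw [if_pos h1, get_nd, get_nd]
        by_cases h2 : q % 2 = 1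
        · rw [if_pos h2, if_pos h2, ihr d _ _ h.2 hp2 hq2]
          by_cases h3 : q = p
          · rw [if_pos h3, if_pos (by rw [h3])]
          · rw [if_neg h3, if_neg (by omega)]
        · rw [if_neg h2, if_neg h2, if_neg (by omega)]
      · rw [if_neg h1, get_nd, get_nd]
        by_cases h2 : q % 2 = 1
        · rw [if_pos h2, if_pos h2, if_neg (by omega)]
        · rw [if_neg h2, if_neg h2, ihl d _ _ h.1 hp2 hq2]
          by_cases h3 : q = p
          · rw [if_pos h3, if_pos (by rw [h3])]
          · rw [if_neg h3, if_neg (by omega)]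

theorem beq_ok (s : BT) : ∀ t : BT, s.beq t = true → s = t := by
  induction s with
  | lf m =>
    intro t h
    cases t with
    | lf m' => rw [Nat.eq_of_beq_eq_true (show Nat.beq m m' = true from h)]
    | nd l r => exact absurd h Bool.false_ne_true
  | nd l r ihl ihr =>
    intro t h
    cases t with
    | lf m' => exact absurd h Bool.false_ne_true
    | nd l' r' =>
      obtain ⟨h1, h2⟩ := rec_f (show (Bool.rec false (r.beq r') (l.beq l') : Bool) = true from h)
      rw [ihl _ h1, ihr _ h2]

/-! ### bits -/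

theorem tb_two (i j : ℕ) : (two i).testBit j = decide (i = j) := by
  have h : two i = 2 ^ i := Nat.one_shiftLeft i
  rw [h, Nat.testBit_two_pow]

theorem tb_land (x y j : ℕ) : (Nat.land x y).testBit j = (x.testBit j && y.testBit j) := Nat.testBit_and x y j
theorem tb_lor (x y j : ℕ) : (Nat.lor x y).testBit j = (x.testBit j || y.testBit j) := Nat.testBit_or x y j
theorem tb_xor (x y j : ℕ) : (Nat.xor x y).testBit j = (x.testBit j ^^ y.testBit j) := Nat.testBit_xor x y j

theorem fsts_eq (l : List (ℕ × ℕ)) : fsts l = l.map Prod.fst := by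
  induction l with
  | nil => rfl
  | cons p l ih => exact congrArg (p.1 :: ·) ih

theorem snds_eq (l : List (ℕ × ℕ)) : snds l = l.map Prod.snd := by
  induction l with
  | nil => rfl
  | cons p l ih => exact congrArg (p.2 :: ·) ih

theorem len_eq (l : List ℕ) : len l = l.length := by
  induction l with
  | nil => rfl
  | cons p l ih => exact congrArg Nat.succ ih

theorem ors_ok (l : List ℕ) : ∀ (acc : ℕ) (k : ℕ → Bool), ors l acc k = true →
    ∃ w, k w = true ∧ (∀ i, w.testBit i = (acc.testBit i || decide (i ∈ l))) ∧ l.Nodup ∧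
      ∀ i ∈ l, acc.testBit i = false := by
  induction l with
  | nil =>
    intro acc k h
    exact ⟨acc, h, by simp, List.nodup_nil, by simp⟩
  | cons p l ih =>
    intro acc k h
    obtain ⟨h1, h2⟩ := rec_f (show (Bool.rec false (ors l (Nat.lor acc (two p)) k)
      (Nat.beq (Nat.land acc (two p)) 0) : Bool) = true from h)
    have h3 : acc.testBit p = false := by
      have h4 : (Nat.land acc (two p)).testBit p = false := by
        rw [Nat.eq_of_beq_eq_true h1, Nat.zero_testBit]
      rw [tb_land, tb_two] at h4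
      simpa using h4
    obtain ⟨w, hk, hw, hnd, hz⟩ := ih _ _ h2
    have hz' : ∀ i ∈ l, acc.testBit i = false ∧ i ≠ p := by
      intro i hi
      have h5 := hz i hi
      rw [tb_lor, tb_two] at h5
      simp only [Bool.or_eq_false_iff, decide_eq_false_iff_not] at h5
      exact ⟨h5.1, fun e => h5.2 e.symm⟩
    refine ⟨w, hk, ?_, ?_, ?_⟩
    · intro i
      rw [hw, tb_lor, tb_two, Bool.or_assoc]
      congr 1
      rw [← Bool.decide_or]
      congr 1
      rw [List.mem_cons]
      exact propext ⟨fun h => h.elim (fun e => Or.inl e.symm) Or.inr, fun h => h.elim (fun e => Or.inl e.symm) Or.inr⟩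
    · rw [List.nodup_cons]
      exact ⟨fun h5 => (hz' p h5).2 rfl, hnd⟩
    · intro i hi
      rcases List.mem_cons.1 hi with rfl | hi
      · exact h3
      · exact (hz' i hi).1

theorem ands_ok (t : BT) (l : List ℕ) : ∀ acc j : ℕ, (ands t l acc).testBit j = true ↔
    acc.testBit j = true ∧ ∀ v ∈ l, (t.get v).testBit j = true := by
  induction l with
  | nil =>
    intro acc j
    exact ⟨fun h => ⟨h, by simp⟩, fun h => h.1⟩
  | cons p l ih =>
    intro acc j
    have h : ands t (p :: l) acc = ands t l (Nat.land acc (t.get p)) := rfl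
    rw [h, ih, tb_land, Bool.and_eq_true]
    constructor
    · rintro ⟨⟨h1, h2⟩, h3⟩
      refine ⟨h1, fun v hv => ?_⟩
      rcases List.mem_cons.1 hv with rfl | hv
      · exact h2
      · exact h3 v hv
    · rintro ⟨h1, h2⟩
      exact ⟨⟨h1, h2 p List.mem_cons_self⟩, fun v hv => h2 v (List.mem_cons_of_mem _ hv)⟩

theorem chkB_ok (t : BT) (SA : ℕ) (l : List (ℕ × ℕ)) (h : chkB t SA l = true) :
    ∀ p ∈ l, Nat.land (t.get p.1) SA = Nat.xor SA (two p.2) := by
  induction l with
  | nil => intro p hp; exact absurd hp (by simp)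
  | cons q l ih =>
    obtain ⟨h1, h2⟩ := rec_f (show (Bool.rec false (chkB t SA l)
      (Nat.beq (Nat.land (t.get q.1) SA) (Nat.xor SA (two q.2))) : Bool) = true from h)
    intro p hp
    rcases List.mem_cons.1 hp with rfl | hp
    · exact Nat.eq_of_beq_eq_true h1
    · exact ih h2 p hp

theorem updA_ok (SA NA : ℕ) (l : List (ℕ × ℕ)) : ∀ t : BT, t.perf 8 = true → (l.map Prod.fst).Nodup →
    (∀ p ∈ l, p.1 < 256) → (updA SA NA l t).perf 8 = true ∧
    (∀ v < 256, v ∉ l.map Prod.fst → (updA SA NA l t).get v = t.get v) ∧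
    ∀ p ∈ l, (updA SA NA l t).get p.1 = Nat.lor (Nat.xor (t.get p.1) SA) (Nat.xor NA (two p.2)) := by
  induction l with
  | nil => intro t ht _ _; exact ⟨ht, fun v _ _ => rfl, by simp⟩
  | cons q l ih =>
    intro t ht hnd hlt
    rw [List.map_cons, List.nodup_cons] at hnd
    set x := Nat.lor (Nat.xor (t.get q.1) SA) (Nat.xor NA (two q.2)) with hx
    have e : updA SA NA (q :: l) t = updA SA NA l (BT.set x t q.1) := rfl
    have hq : q.1 < 2 ^ 8 := hlt q List.mem_cons_self
    obtain ⟨h1, h2, h3⟩ := ih (BT.set x t q.1) (perf_set x t 8 _ ht) hnd.2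
      (fun p hp => hlt p (List.mem_cons_of_mem _ hp))
    rw [e]
    refine ⟨h1, ?_, ?_⟩
    · intro v hv hvl
      rw [List.map_cons, List.mem_cons, not_or] at hvl
      rw [h2 v hv hvl.2, get_set x t 8 _ _ ht hq hv, if_neg hvl.1]
    · intro p hp
      rcases List.mem_cons.1 hp with rfl | hp
      · rw [h2 _ hq hnd.1, get_set x t 8 _ _ ht hq hq, if_pos rfl]
      · have hne : p.1 ≠ q.1 := fun e => hnd.1 (e ▸ List.mem_map_of_mem hp)
        rw [h3 p hp, get_set x t 8 _ _ ht hq (hlt p (List.mem_cons_of_mem _ hp)), if_neg hne]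

theorem updB_ok (SA NA : ℕ) (l : List (ℕ × ℕ)) : ∀ t : BT, t.perf 8 = true → (l.map Prod.fst).Nodup →
    (∀ p ∈ l, p.1 < 256) → (updB SA NA l t).perf 8 = true ∧
    (∀ v < 256, v ∉ l.map Prod.fst → (updB SA NA l t).get v = t.get v) ∧
    ∀ p ∈ l, (updB SA NA l t).get p.1 = Nat.lor (Nat.xor (t.get p.1) (Nat.xor SA (two p.2))) NA := by
  induction l with
  | nil => intro t ht _ _; exact ⟨ht, fun v _ _ => rfl, by simp⟩
  | cons q l ih =>
    intro t ht hnd hlt
    rw [List.map_cons, List.nodup_cons] at hnd
    set x := Nat.lor (Nat.xor (t.get q.1) (Nat.xor SA (two q.2))) NA with hx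
    have e : updB SA NA (q :: l) t = updB SA NA l (BT.set x t q.1) := rfl
    have hq : q.1 < 2 ^ 8 := hlt q List.mem_cons_self
    obtain ⟨h1, h2, h3⟩ := ih (BT.set x t q.1) (perf_set x t 8 _ ht) hnd.2
      (fun p hp => hlt p (List.mem_cons_of_mem _ hp))
    rw [e]
    refine ⟨h1, ?_, ?_⟩
    · intro v hv hvl
      rw [List.map_cons, List.mem_cons, not_or] at hvl
      rw [h2 v hv hvl.2, get_set x t 8 _ _ ht hq hv, if_neg hvl.1]
    · intro p hp
      rcases List.mem_cons.1 hp with rfl | hp
      · rw [h2 _ hq hnd.1, get_set x t 8 _ _ ht hq hq, if_pos rfl]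
      · have hne : p.1 ≠ q.1 := fun e => hnd.1 (e ▸ List.mem_map_of_mem hp)
        rw [h3 p hp, get_set x t 8 _ _ ht hq (hlt p (List.mem_cons_of_mem _ hp)), if_neg hne]

/-! ### the complex of a state -/

/-- the faces of the complex of a state -/
def KB (t : BT) : Set (Finset ℕ) := {T | ∃ j, ∀ v ∈ T, v < 256 ∧ (t.get v).testBit j = true}

/-- the state is consistent, and its complex is a PL sphere -/
def Good (n : ℕ) (t : BT) (U : ℕ) : Prop :=
  t.perf 8 = true ∧ (∀ v < 256, ∀ j, (t.get v).testBit j = true → U.testBit j = true) ∧ PLC n (KB t)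

theorem KB_down {t : BT} : ∀ T ∈ KB t, ∀ S, S ⊆ T → S ∈ KB t := by
  rintro T ⟨j, h⟩ S hS
  exact ⟨j, fun v hv => h v (hS hv)⟩

end Pool.Agent.V8H85.GC
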