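import Pool.Agent.V8H85.GC.Fin2

/-!
# Segments with indices of twenty bits
-/

set_option autoImplicit false

noncomputable section

namespace Pool.Agent.V8H85.GC

open Pool.Agent.V8H50.FL (rec_f)

/-- the first `m` entries of an encoded list of pairs; indices of twenty bits -/
def decW (m : Nat) : Nat → List (Nat × Nat) :=
  Nat.rec (motive := fun _ => Nat → List (Nat × Nat)) (fun _ => [])
    (fun _ ih c => (Nat.land c 255, Nat.land (Nat.shiftRight c 8) 1048575) :: ih (Nat.shiftRight c 28)) m

/-- a sequence of flips; each flip is encoded by a number -/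
def runW (n : Nat) (fl : List Nat) : BT → Nat → (BT → Nat → Bool) → Bool :=
  List.rec (motive := fun _ => BT → Nat → (BT → Nat → Bool) → Bool) (fun t U k => k t U)
    (fun x _ ih t U k =>
      flip n (decW (Nat.land x 15) (Nat.shiftRight x 4))
        (decW (Nat.sub (Nat.succ n) (Nat.land x 15)) (Nat.shiftRight x (Nat.add 4 (Nat.mul 28 (Nat.land x 15))))) t U
        fun t U => ih t U k) fl

/-- the check of a segment of the certificate -/
def segW (n : Nat) (fl : List Nat) (t : BT) (U : Nat) (t' : BT) (U' : Nat) : Bool :=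
  runW n fl t U fun s W => Bool.rec false (s.beq t') (Nat.beq W U')

theorem runW_ok {n : ℕ} (fl : List ℕ) : ∀ (t : BT) (U : ℕ) (k : BT → ℕ → Bool), runW n fl t U k = true → Good n t U →
    ∃ t' U', k t' U' = true ∧ Good n t' U' := by
  induction fl with
  | nil => exact fun t U k h g => ⟨t, U, h, g⟩
  | cons x fl ih =>
    intro t U k h g
    have h' : flip n (decW (Nat.land x 15) (Nat.shiftRight x 4))
        (decW (Nat.sub (Nat.succ n) (Nat.land x 15)) (Nat.shiftRight x (Nat.add 4 (Nat.mul 28 (Nat.land x 15))))) t U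
        (fun t U => runW n fl t U k) = true := h
    obtain ⟨t1, U1, h1, g1⟩ := flip_ok h' g
    exact ih t1 U1 k h1 g1

/-- soundness of a segment -/
theorem segW_ok {n : ℕ} {fl : List ℕ} {t t' : BT} {U U' : ℕ} (h : segW n fl t U t' U' = true) (g : Good n t U) :
    Good n t' U' := by
  obtain ⟨s, W, h1, g1⟩ := runW_ok fl t U _ h g
  obtain ⟨h2, h3⟩ := rec_f h1
  rw [← Nat.eq_of_beq_eq_true h2, ← beq_ok _ _ h3]
  exact g1

end Pool.Agent.V8H85.GC

end
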